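import Pool.Agent.T9h40.GP.Spec

/-!
# The branches at infinity: all together
-/

set_option autoImplicit false

open Polynomial Filter Topology Bornology

namespace Pool.Agent.T9h67.GP

open Pool.Agent.T9h40.GP

theorem brEx : B1 → B2 → B3 → B4 → B5 → BrEx := by
  intro h1 h2 h3 h4 h5 n e P A hP R₀
  obtain ⟨R, y, hR, hfac, hlim⟩ := h1 n e P A hP
  obtain ⟨R₁, hR1, hdiff, hinj⟩ := h2 n e P A hP R y hR hfac hlim
  have hR1' : 0 < R₁ := hR.trans_le hR1
  have hα : ∀ l, (A l).leadingCoeff ≠ 0 := by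
    intro l h
    have h0 : A l = 0 := leadingCoeff_eq_zero.1 h
    have h6 := hP.degA l
    have h7 := hP.e1
    rw [h0, natDegree_zero] at h6
    omega
  have h8 : ∀ j, (∃ R₂, R₁ ≤ R₂ ∧ ∀ t, R₂ < ‖t‖ → deriv (y j) t ≠ 0) ∧
      Tendsto (fun t => ‖y j t‖) (cobounded ℂ) atTop := fun j =>
    h3 (y j) R₁ e _ hR1' hP.e1 (hα j) (hdiff j) (hlim j)
  choose R₂ hR2 hder using fun j => (h8 j).1
  obtain ⟨R₃, hR3, hasy⟩ := h4 n e P A hP R y hR hfac hlim
  obtain ⟨R₄, hR4⟩ : ∃ R₄ : ℝ, R₄ = max R₀ (max R₁ (max R₃ (∑ j, |R₂ j|))) := ⟨_, rfl⟩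
  have k0 : R₀ ≤ R₄ := by rw [hR4]; exact le_max_left _ _
  have k1 : R₁ ≤ R₄ := by rw [hR4]; exact (le_max_left _ _).trans (le_max_right _ _)
  have k3 : R₃ ≤ R₄ := by
    rw [hR4]
    exact (le_max_left _ _).trans ((le_max_right _ _).trans (le_max_right _ _))
  have k2 : ∀ j, R₂ j ≤ R₄ := by
    intro j
    rw [hR4]
    refine (le_abs_self _).trans (le_trans ?_ ((le_max_right _ _).trans
      ((le_max_right _ _).trans (le_max_right _ _))))
    exact Finset.single_le_sum (f := fun j => |R₂ j|) (fun i _ => abs_nonneg _)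
      (Finset.mem_univ j)
  obtain ⟨R', hR', hR0', hfar⟩ := h5 P hP.monic R₄
  refine ⟨R₄, R', y, k0, k0.trans hR', ?_, ?_⟩
  · exact
      { Rpos := hR1'.trans_le k1
        Rpos' := hR0'
        diff := fun j => (hdiff j).mono fun t ht => lt_of_le_of_lt k1 ht
        fac := fun t ht => hfac t (lt_of_le_of_lt (hR1.trans k1) ht)
        inj := fun t ht => hinj t (lt_of_le_of_lt k1 ht)
        der := fun j t ht => hder j t (lt_of_le_of_lt (k2 j) ht)
        inf := fun j => (h8 j).2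
        far := hfar }
  · exact
      { ne := fun l i t ht => hasy.ne l i t (lt_of_le_of_lt k3 ht)
        diag := hasy.diag
        off := hasy.off }

end Pool.Agent.T9h67.GP
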