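import Pool.Agent.T9h40.GP.Spec

/-!
# Extension of the identity from a dense set
-/

set_option autoImplicit false

open Polynomial Filter Topology Bornology

namespace Pool.Agent.T9h67.GP

open Pool.Agent.T9h40.GP

theorem eq_of_dense {X : Type*} [TopologicalSpace X] [T1Space X] [∀ x : X, NeBot (𝓝[≠] x)]
    {U K E : Set X} (hU : IsOpen U) (hK : Dense K) (hE : E.Finite) {f : X → ℝ}
    (hf : ∀ t ∈ U, ContinuousAt f t) (h0 : ∀ t ∈ K, t ∈ U → t ∉ E → f t = 0) :
    ∀ t ∈ U, f t = 0 := by
  intro t ht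
  by_contra hne
  have h1 : ∀ᶠ x in 𝓝 t, f x ≠ 0 := (hf t ht).eventually_ne hne
  have h2 : ∀ᶠ x in 𝓝 t, x ∈ U := hU.mem_nhds ht
  have h3 : ∃ᶠ x in 𝓝 t, x ∈ K \ E :=
    mem_closure_iff_frequently.1 ((hK.sdiff_finite hE) t)
  obtain ⟨x, hx, hx1, hx2⟩ := (h3.and_eventually (h1.and h2)).exists
  exact hx1 (h0 x hx.1 hx2 hx.2)

theorem evalEval_eq (P : Polynomial ℂ[X]) (s t : ℂ) :
    evalEval t s P = (P.eval (C s)).eval t := rfl

theorem ext : Ext := by
  intro n P R R' y hB K E hK hE L G s μ hs hL hG hid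
  obtain ⟨U, hU⟩ : ∃ U : Set ℂ, U = {t : ℂ | R < ‖t‖ ∧ evalEval t s P ≠ 0} := ⟨_, rfl⟩
  have hUo : IsOpen U := by
    rw [hU]
    refine (isOpen_lt continuous_const continuous_norm).inter ?_
    exact isOpen_ne_fun (P.eval (C s)).continuous continuous_const
  have key : ∀ t ∈ U, (fun t => (- G t + ∑ j, L j t * Real.log ‖y j t - s‖) -
      ∑ q ∈ rts P s, μ q * Real.log ‖q - t‖) t = 0 := by
    refine eq_of_dense hUo hK hE ?_ ?_
    · intro t ht
      rw [hU] at ht
      obtain ⟨ht1, ht2⟩ := ht
      have hne : ∀ j, y j t - s ≠ 0 := by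
        intro j h
        apply ht2
        rw [hB.fac t ht1 s]
        refine Finset.prod_eq_zero (Finset.mem_univ j) ?_
        rw [← neg_sub, h, neg_zero]
      have hq : ∀ q ∈ rts P s, q - t ≠ 0 := by
        intro q hq h
        have h1 : (P.eval (C s)).eval q = 0 := by
          rw [rts, Multiset.mem_toFinset] at hq
          exact (mem_roots'.1 hq).2
        rw [sub_eq_zero.1 h] at h1
        exact ht2 h1
      have hyc : ∀ j, ContinuousAt (y j) t := fun j =>
        ((hB.diff j).differentiableAt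
          ((isOpen_lt continuous_const continuous_norm).mem_nhds ht1)).continuousAt
      refine ContinuousAt.sub (ContinuousAt.add (hG t ht1).continuousAt.neg ?_) ?_
      · refine tendsto_finsetSum _ fun j _ => ?_
        exact (hL j t ht1).continuousAt.mul
          (((hyc j).sub continuousAt_const).norm.log (norm_ne_zero_iff.2 (hne j)))
      · refine tendsto_finsetSum _ fun q hq' => ?_
        exact continuousAt_const.mul
          ((continuousAt_const.sub continuousAt_id).norm.log (norm_ne_zero_iff.2 (hq q hq')))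
    · intro t htK htU htE
      rw [hU] at htU
      show (- G t + ∑ j, L j t * Real.log ‖y j t - s‖) -
        ∑ q ∈ rts P s, μ q * Real.log ‖q - t‖ = 0
      rw [hid t htK htU.1 htE htU.2, sub_self]
  intro t ht1 ht2
  have := key t (by rw [hU]; exact ⟨ht1, ht2⟩)
  exact sub_eq_zero.1 this

end Pool.Agent.T9h67.GP
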