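import Pool.Agent.T9h40.GP.Spec

/-!
# Inverting the matrix
-/

set_option autoImplicit false

open Polynomial Filter Topology Bornology

namespace Pool.Agent.T9h67.GP

open Pool.Agent.T9h40.GP

theorem bound {n : ℕ} {M : Matrix (Fin n) (Fin n) ℝ} {x b : Fin n → ℝ} (h : M.mulVec x = b)
    (hd : ∀ l, ∑ i ∈ Finset.univ.erase l, |M l i| + 1 ≤ |M l l|) (j : Fin n) :
    |x j| ≤ ∑ l, |b l| := by
  obtain ⟨l, -, hl⟩ := Finset.exists_max_image Finset.univ (fun i => |x i|) ⟨j, Finset.mem_univ j⟩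
  have h1 : b l = M l l * x l + ∑ i ∈ Finset.univ.erase l, M l i * x i := by
    rw [← h, Matrix.mulVec, dotProduct, ← Finset.add_sum_erase _ _ (Finset.mem_univ l)]
  have h2 : |∑ i ∈ Finset.univ.erase l, M l i * x i| ≤
      (∑ i ∈ Finset.univ.erase l, |M l i|) * |x l| := by
    refine (Finset.abs_sum_le_sum_abs _ _).trans ?_
    rw [Finset.sum_mul]
    refine Finset.sum_le_sum fun i _ => ?_
    rw [abs_mul]
    exact mul_le_mul_of_nonneg_left (hl i (Finset.mem_univ i)) (abs_nonneg _)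
  have h3 : |M l l| * |x l| ≤ |b l| + |∑ i ∈ Finset.univ.erase l, M l i * x i| := by
    rw [← abs_mul]
    have : M l l * x l = b l - ∑ i ∈ Finset.univ.erase l, M l i * x i := by rw [h1]; ring
    rw [this]
    exact abs_sub _ _
  have h4 := hd l
  have h5 : |x l| ≤ |b l| := by nlinarith [abs_nonneg (x l)]
  exact (hl j (Finset.mem_univ j)).trans (h5.trans
    (Finset.single_le_sum (f := fun l => |b l|) (fun i _ => abs_nonneg _) (Finset.mem_univ l)))

theorem cd_det {n : ℕ} {A : ℂ → Matrix (Fin n) (Fin n) ℝ} {s : Set ℂ}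
    (h : ∀ l i, ContDiffOn ℝ 1 (fun t => A t l i) s) : ContDiffOn ℝ 1 (fun t => (A t).det) s := by
  simp_rw [Matrix.det_apply']
  exact ContDiffOn.sum fun σ _ => contDiffOn_const.mul (contDiffOn_prod fun i _ => h _ _)

theorem cd_adj {n : ℕ} {A : ℂ → Matrix (Fin n) (Fin n) ℝ} {s : Set ℂ}
    (h : ∀ l i, ContDiffOn ℝ 1 (fun t => A t l i) s) (i j : Fin n) :
    ContDiffOn ℝ 1 (fun t => (A t).adjugate i j) s := by
  simp_rw [Matrix.adjugate_apply]
  refine cd_det fun l k => ?_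
  by_cases hl : l = j
  · subst hl
    simp only [Matrix.updateRow_self]
    exact contDiffOn_const
  · simp only [Matrix.updateRow_ne hl]
    exact h l k

theorem ev {p : ℂ → Prop} (h : ∀ᶠ t in cobounded ℂ, p t) (R : ℝ) :
    ∃ R₁, R ≤ R₁ ∧ ∀ t : ℂ, R₁ < ‖t‖ → p t := by
  obtain ⟨r, -, hr⟩ := (hasBasis_cobounded_norm.eventually_iff).1 h
  exact ⟨max R r, le_max_left _ _, fun t ht => hr (show r ≤ ‖t‖ from
    ((le_max_right _ _).trans_lt ht).le)⟩

theorem matInv : MatInv := by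
  intro n M R hR hM hdiag hoff
  have h1 : ∀ l i, l ≠ i → ∃ C : ℝ, ∀ᶠ t in cobounded ℂ, |M t l i| ≤ C := by
    intro l i hli
    obtain ⟨c, hc⟩ := hoff l i hli
    refine ⟨|c| + 1, ?_⟩
    have := hc.abs.eventually (Iio_mem_nhds (show |c| < |c| + 1 by linarith))
    exact this.mono fun t ht => (show |M t l i| < |c| + 1 from ht).le
  have h2 : ∀ l i, ∃ C : ℝ, 0 ≤ C ∧ (l ≠ i → ∀ᶠ t in cobounded ℂ, |M t l i| ≤ C) := by
    intro l i
    by_cases hli : l = i
    · exact ⟨0, le_rfl, fun h => absurd hli h⟩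
    · obtain ⟨C, hC⟩ := h1 l i hli
      exact ⟨max C 0, le_max_right _ _, fun _ => hC.mono fun t ht => ht.trans (le_max_left _ _)⟩
  choose C hC0 hC using h2
  have h3 : ∀ᶠ t in cobounded ℂ, ∀ l, ∑ i ∈ Finset.univ.erase l, |M t l i| + 1 ≤ |M t l l| := by
    rw [eventually_all]
    intro l
    have e1 : ∀ᶠ t in cobounded ℂ, ∀ i, l ≠ i → |M t l i| ≤ C l i := by
      rw [eventually_all]
      intro i
      by_cases hli : l = i
      · exact Eventually.of_forall fun t h => absurd hli h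
      · exact (hC l i hli).mono fun t ht _ => ht
    have e2 := (hdiag l).eventually_le_atBot (-(∑ i, C l i + 1))
    filter_upwards [e1, e2] with t ht1 ht2
    have e3 : ∑ i ∈ Finset.univ.erase l, |M t l i| ≤ ∑ i, C l i := by
      refine (Finset.sum_le_sum fun i hi => ht1 i (Finset.ne_of_mem_erase hi).symm).trans ?_
      exact Finset.sum_le_sum_of_subset_of_nonneg (Finset.erase_subset _ _) fun i _ _ => hC0 l i
    have e4 := neg_le_abs (M t l l)
    linarith
  obtain ⟨R₁, hRR, hR1⟩ := ev h3 R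
  have hdet : ∀ t : ℂ, R₁ < ‖t‖ → (M t).det ≠ 0 := by
    intro t ht
    refine det_ne_zero_of_sum_row_lt_diag fun k => ?_
    have := hR1 t ht k
    simp only [Real.norm_eq_abs]
    linarith
  refine ⟨R₁, hRR, fun t ht => isUnit_iff_ne_zero.2 (hdet t ht), ?_⟩
  intro b hb hb0 j
  have hsub : {t : ℂ | R₁ < ‖t‖} ⊆ {t : ℂ | R < ‖t‖} := fun t ht => lt_of_le_of_lt hRR ht
  have hM' : ∀ l i, ContDiffOn ℝ 1 (fun t => M t l i) {t | R₁ < ‖t‖} :=
    fun l i => (hM l i).mono hsub
  constructor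
  · have e : ∀ t, ((M t)⁻¹.mulVec (fun l => b l t)) j =
        ∑ i, (((M t).det)⁻¹ * (M t).adjugate j i) * b i t := by
      intro t
      rw [Matrix.mulVec, dotProduct]
      refine Finset.sum_congr rfl fun i _ => ?_
      rw [Matrix.inv_def, Ring.inverse_eq_inv']
      rfl
    simp_rw [e]
    exact ContDiffOn.sum fun i _ => (((cd_det hM').inv fun t ht => hdet t ht).mul
      (cd_adj hM' j i)).mul (hb i)
  · have hs : Tendsto (fun t => ∑ l, |b l t|) (cobounded ℂ) (𝓝 0) := by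
      have : Tendsto (fun t => ∑ l, |b l t|) (cobounded ℂ) (𝓝 (∑ _l : Fin n, (0:ℝ))) :=
        tendsto_finsetSum _ fun l _ => by simpa using (hb0 l).abs
      simpa using this
    refine squeeze_zero_norm' ?_ hs
    have e0 : ∀ᶠ t : ℂ in cobounded ℂ, R₁ < ‖t‖ :=
      (tendsto_norm_cobounded_atTop (E := ℂ)).eventually_gt_atTop R₁
    filter_upwards [e0] with t ht
    rw [Real.norm_eq_abs]
    refine bound (M := M t) ?_ (hR1 t ht) j
    rw [Matrix.mulVec_mulVec, Matrix.mul_nonsing_inv _ (isUnit_iff_ne_zero.2 (hdet t ht)),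
      Matrix.one_mulVec]

end Pool.Agent.T9h67.GP
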